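import Mathlib

/-!
Averaging over rotations on a complete Reinhardt domain.
-/

set_option autoImplicit false

namespace Pool.Agent.H6Z.Berg

open Set Filter Topology MeasureTheory Function
open scoped Real ComplexConjugate

theorem avg {X : Type*} [MeasurableSpace X] (μ : Measure X) [SFinite μ] (T : ℝ → X → X)
    (hT : Measurable (uncurry T)) (hp : ∀ θ, MeasurePreserving (T θ) μ μ) (F : X → ℂ)
    (hF : Integrable F μ) :
    Integrable (fun x => ∫ θ in Ioc 0 (2 * π), F (T θ x)) μ ∧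
      ∫ x, (∫ θ in Ioc 0 (2 * π), F (T θ x)) ∂μ = (2 * π : ℝ) * ∫ x, F x ∂μ := by
  set ν : Measure ℝ := volume.restrict (Ioc 0 (2 * π))
  have hs : MeasurePreserving (fun p : ℝ × X => (id p.1, T p.1 p.2)) (ν.prod μ) (ν.prod μ) :=
    (MeasurePreserving.id ν).skew_product hT (ae_of_all _ fun θ => (hp θ).map_eq)
  have h1 : Integrable (fun p : ℝ × X => F p.2) (ν.prod μ) := hF.comp_snd ν
  have h2 : Integrable (fun p : ℝ × X => F (T p.1 p.2)) (ν.prod μ) :=
    hs.integrable_comp_of_integrable h1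
  refine ⟨h2.integral_prod_right, ?_⟩
  rw [← integral_prod_symm _ h2, integral_prod _ h2]
  have h3 : ∀ θ, ∫ x, F (T θ x) ∂μ = ∫ x, F x ∂μ := fun θ => by
    have h4 := hF.aestronglyMeasurable
    rw [← (hp θ).map_eq] at h4
    rw [← integral_map (hp θ).measurable.aemeasurable h4, (hp θ).map_eq]
  simp only [h3, integral_const, ν]
  rw [Complex.real_smul]
  congr 2
  simp [Measure.real, Real.pi_pos.le]

theorem coef (ψ : ℂ → ℂ) (k : ℕ) (h : DifferentiableOn ℂ ψ (Metric.closedBall 0 1)) :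
    ∫ θ in Ioc 0 (2 * π), circleMap 0 1 θ ^ k * conj (ψ (circleMap 0 1 θ)) =
      (2 * π : ℝ) * conj (iteratedDeriv k ψ 0 / k.factorial) := by
  have h1 := h.circleIntegral_one_div_sub_center_pow_smul one_pos k
  rw [circleIntegral, intervalIntegral.integral_of_le Real.two_pi_pos.le] at h1
  have h2 : ∀ θ : ℝ, circleMap 0 1 θ ^ k * conj (ψ (circleMap 0 1 θ)) =
      conj (-Complex.I * (deriv (circleMap 0 1) θ •
        (1 / (circleMap 0 1 θ - 0) ^ (k + 1)) • ψ (circleMap 0 1 θ))) := fun θ => by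
    have h3 : circleMap 0 1 θ ≠ 0 := circleMap_ne_center one_ne_zero
    have h4 : conj (circleMap 0 1 θ) = (circleMap 0 1 θ)⁻¹ := by
      rw [Complex.inv_def, Complex.normSq_eq_norm_sq]; simp
    have h5 : -Complex.I * (deriv (circleMap 0 1) θ •
        (1 / (circleMap 0 1 θ - 0) ^ (k + 1)) • ψ (circleMap 0 1 θ)) =
        ((circleMap 0 1 θ)⁻¹) ^ k * ψ (circleMap 0 1 θ) := by
      rw [deriv_circleMap, smul_eq_mul, smul_eq_mul, sub_zero, inv_pow]
      field_simp
      simp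
      ring
    rw [h5, map_mul, map_pow, map_inv₀, h4, inv_inv]
  simp only [h2]
  rw [integral_conj, integral_const_mul, h1, smul_eq_mul]
  have h6 : -Complex.I * (2 * π * Complex.I / k.factorial * iteratedDeriv k ψ 0) =
      (2 * π : ℝ) * (iteratedDeriv k ψ 0 / k.factorial) := by
    push_cast
    linear_combination (-(2 * π * iteratedDeriv k ψ 0 / k.factorial : ℂ)) * Complex.I_mul_I
  rw [h6, map_mul, Complex.conj_ofReal]

theorem iter_mul (φ : ℂ → ℂ) (w : ℂ) (k : ℕ) :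
    iteratedDeriv k (fun t => φ (w * t)) = fun t => w ^ k * iteratedDeriv k φ (w * t) := by
  induction k with
  | zero => simp
  | succ k ih =>
    funext t
    rw [iteratedDeriv_succ, ih, iteratedDeriv_succ, deriv_const_mul_field,
      deriv_comp_mul_left, smul_eq_mul]
    ring

theorem mp_mul (u : ℂ) (hu : ‖u‖ = 1) : MeasurePreserving (fun z : ℂ => u * z) :=
  (rotation ⟨u, by simpa [Submonoid.unitSphere] using hu⟩).measurePreserving

/-- rotation of one coordinate -/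
noncomputable def rot (j : Fin 2) (θ : ℝ) (x : Fin 2 → ℂ) : Fin 2 → ℂ :=
  fun i => (if i = j then circleMap 0 1 θ else 1) * x i

theorem norm_rot (j : Fin 2) (θ : ℝ) (x : Fin 2 → ℂ) (i : Fin 2) : ‖rot j θ x i‖ = ‖x i‖ := by
  unfold rot
  split_ifs <;> simp

theorem rot_meas (j : Fin 2) : Measurable (uncurry (rot j)) := by
  refine Continuous.measurable (continuous_pi fun i => ?_)
  unfold rot
  simp only [uncurry]
  split_ifs
  · exact ((continuous_circleMap 0 1).comp continuous_fst).mul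
      ((continuous_apply i).comp continuous_snd)
  · fun_prop

theorem rot_mp {Ω : Set (Fin 2 → ℂ)} (ho : IsOpen Ω)
    (hr : ∀ z ∈ Ω, ∀ y : Fin 2 → ℂ, ‖y 0‖ ≤ ‖z 0‖ → ‖y 1‖ ≤ ‖z 1‖ → y ∈ Ω) (j : Fin 2) (θ : ℝ) :
    MeasurePreserving (rot j θ) (volume.restrict Ω) (volume.restrict Ω) := by
  have h1 : MeasurePreserving (rot j θ) :=
    volume_preserving_pi (f := fun i z => (if i = j then circleMap 0 1 θ else 1) * z)
      fun i => mp_mul _ (by split_ifs <;> simp)
  have h2 : rot j θ ⁻¹' Ω = Ω := by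
    ext x
    exact ⟨fun hx => hr _ hx _ (norm_rot ..).ge (norm_rot ..).ge,
      fun hx => hr _ hx _ (norm_rot ..).le (norm_rot ..).le⟩
  have h3 := h1.restrict_preimage ho.measurableSet
  rwa [h2] at h3

theorem orth {Ω : Set (Fin 2 → ℂ)} (ho : IsOpen Ω)
    (hr : ∀ z ∈ Ω, ∀ y : Fin 2 → ℂ, ‖y 0‖ ≤ ‖z 0‖ → ‖y 1‖ ≤ ‖z 1‖ → y ∈ Ω)
    (G : ℝ → ℝ) (k : ℕ) (h : (Fin 2 → ℂ) → ℂ) (hd : DifferentiableOn ℂ h Ω)
    (hi : IntegrableOn (fun x => (G ‖x 0‖ * x 1 ^ k) * conj (h x)) Ω)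
    (h0 : ∫ x in Ω, G ‖x 0‖ * ‖x 1‖ ^ (2 * k) = 0) :
    ∫ x in Ω, (G ‖x 0‖ * x 1 ^ k) * conj (h x) = 0 := by
  have hπ : ((2 * π : ℝ) : ℂ) ≠ 0 := by exact_mod_cast Real.two_pi_pos.ne'
  set φ : ℂ → ℂ := fun w => h ![0, w]
  set a : ℂ := iteratedDeriv k φ 0 / k.factorial
  obtain ⟨i1, e1⟩ := avg (volume.restrict Ω) (rot 0) (rot_meas 0) (rot_mp ho hr 0) _ hi
  have s1 : ∀ x ∈ Ω, ∫ θ in Ioc 0 (2 * π),
      (G ‖rot 0 θ x 0‖ * rot 0 θ x 1 ^ k) * conj (h (rot 0 θ x)) =
      (2 * π : ℝ) * ((G ‖x 0‖ * x 1 ^ k) * conj (φ (x 1))) := fun x hx => by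
    have d1 : DifferentiableOn ℂ (fun t : ℂ => h ![t * x 0, x 1]) (Metric.closedBall 0 1) := by
      refine hd.comp (Differentiable.differentiableOn ?_) fun t ht => hr x hx _ ?_ ?_
      · rw [differentiable_pi, Fin.forall_fin_two]
        constructor <;> simp
      · simp only [Matrix.cons_val_zero, norm_mul]
        exact mul_le_of_le_one_left (norm_nonneg _) (mem_closedBall_zero_iff.1 ht)
      · simp
    have d2 := coef _ 0 d1
    have d3 : ∀ θ, rot 0 θ x = ![circleMap 0 1 θ * x 0, x 1] := fun θ => by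
      funext i; fin_cases i <;> simp [rot]
    simp only [norm_rot]
    simp only [d3, Matrix.cons_val_one, Matrix.cons_val_fin_one]
    simp only [pow_zero, one_mul, iteratedDeriv_zero, zero_mul, Nat.factorial_zero, Nat.cast_one,
      div_one] at d2
    rw [integral_const_mul, d2]
    ring
  rw [setIntegral_congr_fun ho.measurableSet s1, integral_const_mul, mul_right_inj' hπ] at e1
  have i2 : IntegrableOn (fun x : Fin 2 → ℂ => (G ‖x 0‖ * x 1 ^ k) * conj (φ (x 1))) Ω := by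
    have := (IntegrableOn.congr_fun i1 s1 ho.measurableSet).const_mul ((2 * π : ℝ) : ℂ)⁻¹
    simp only [inv_mul_cancel_left₀ hπ] at this
    exact this
  obtain ⟨-, e2⟩ := avg (volume.restrict Ω) (rot 1) (rot_meas 1) (rot_mp ho hr 1) _ i2
  have s2 : ∀ x ∈ Ω, ∫ θ in Ioc 0 (2 * π),
      (G ‖rot 1 θ x 0‖ * rot 1 θ x 1 ^ k) * conj (φ (rot 1 θ x 1)) =
      (2 * π : ℝ) * (conj a * ((G ‖x 0‖ * ‖x 1‖ ^ (2 * k) : ℝ) : ℂ)) := fun x hx => by
    have d1 : DifferentiableOn ℂ (fun t : ℂ => φ (x 1 * t)) (Metric.closedBall 0 1) := by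
      refine hd.comp (f := fun t : ℂ => ![0, x 1 * t]) (Differentiable.differentiableOn ?_)
        fun t ht => hr x hx _ ?_ ?_
      · rw [differentiable_pi, Fin.forall_fin_two]
        constructor
        · simp
        · simp only [Matrix.cons_val_one, Matrix.cons_val_fin_one]
          fun_prop
      · simp
      · simp only [Matrix.cons_val_one, Matrix.cons_val_fin_one, norm_mul]
        exact mul_le_of_le_one_right (norm_nonneg _) (mem_closedBall_zero_iff.1 ht)
    have d2 := coef _ k d1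
    rw [iter_mul] at d2
    beta_reduce at d2
    have d3 : ∀ θ, rot 1 θ x 1 = x 1 * circleMap 0 1 θ := fun θ => by simp [rot, mul_comm]
    simp only [norm_rot]
    simp only [d3, mul_pow]
    have d4 : ∀ θ, (G ‖x 0‖ * (x 1 ^ k * circleMap 0 1 θ ^ k)) * conj (φ (x 1 * circleMap 0 1 θ))
        = (G ‖x 0‖ * x 1 ^ k) * (circleMap 0 1 θ ^ k * conj (φ (x 1 * circleMap 0 1 θ))) :=
      fun θ => by ring
    simp only [d4]
    rw [integral_const_mul, d2, mul_zero, mul_div_assoc, map_mul, map_pow]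
    have d5 : ((‖x 1‖ ^ (2 * k) : ℝ) : ℂ) = x 1 ^ k * conj (x 1) ^ k := by
      rw [← mul_pow, Complex.mul_conj', pow_mul]; push_cast; rfl
    rw [Complex.ofReal_mul (G _), d5]
    ring
  rw [setIntegral_congr_fun ho.measurableSet s2, integral_const_mul, mul_right_inj' hπ,
    integral_const_mul, integral_complex_ofReal, h0] at e2
  rw [← e1, ← e2]
  simp

end Pool.Agent.H6Z.Berg
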