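import Pool.Agent.H6Z.Berg.Fub

/-!
The moment estimates.
-/

set_option autoImplicit false

namespace Pool.Agent.H6Z.Berg

open Set Filter Topology MeasureTheory Function Metric
open scoped Real

/-- cut-off -/
noncomputable def chi (r t : ℝ) : ℝ := if t ≤ r then 1 else 0

theorem chi_meas (r : ℝ) : Measurable (chi r) :=
  Measurable.ite measurableSet_Iic measurable_const measurable_const

theorem chi_mem (r t : ℝ) : 0 ≤ chi r t ∧ chi r t ≤ 1 := by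
  unfold chi; split_ifs <;> simp

theorem chi_eq (r : ℝ) : (fun z : ℂ => chi r ‖z‖) = (closedBall (0 : ℂ) r).indicator 1 := by
  funext z
  simp [chi, indicator]

theorem chi_int (r : ℝ) : Integrable fun z : ℂ => chi r ‖z‖ := by
  rw [chi_eq, integrable_indicator_iff measurableSet_closedBall]
  exact integrableOn_const measure_closedBall_lt_top.ne

theorem chi_integral {r : ℝ} (hr : 0 ≤ r) : ∫ z : ℂ, chi r ‖z‖ = π * r ^ 2 := by
  rw [chi_eq, integral_indicator_one measurableSet_closedBall, Measure.real,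
    Complex.volume_closedBall]
  simp [hr, mul_comm]

variable {Φ : ℝ → ℝ}

theorem uu_mem (h0 : ∀ s, 0 ≤ Φ s) (z : ℂ) : 0 ≤ uu Φ z ∧ uu Φ z ≤ 1 :=
  ⟨le_max_left _ _, max_le zero_le_one (by linarith [h0 (‖z‖ ^ 2)])⟩

theorem uu_zero (h1 : ∀ s, 1 ≤ s → 1 + Real.log s ≤ Φ s) {z : ℂ} (hz : 1 ≤ ‖z‖ ^ 2) :
    uu Φ z = 0 := max_eq_left (by linarith [h1 _ hz, Real.log_nonneg hz])

theorem uu_int (hc : Continuous Φ) (h1 : ∀ s, 1 ≤ s → 1 + Real.log s ≤ Φ s) {β : ℝ}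
    (hβ : 0 < β) : Integrable fun z => uu Φ z ^ β := by
  have h2 : Continuous (uu Φ) := by unfold uu; fun_prop
  refine (h2.rpow_const fun _ => Or.inr hβ.le).integrable_of_hasCompactSupport
    (HasCompactSupport.intro (isCompact_closedBall 0 1) fun z hz => ?_)
  rw [mem_closedBall_zero_iff, not_le] at hz
  rw [uu_zero h1 (one_le_pow₀ hz.le), Real.zero_rpow hβ.ne']

theorem chi_uu_int (hc : Continuous Φ) (h1 : ∀ s, 1 ≤ s → 1 + Real.log s ≤ Φ s) {β : ℝ}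
    (hβ : 0 < β) (r : ℝ) : Integrable fun z => chi r ‖z‖ * uu Φ z ^ β :=
  (uu_int hc h1 hβ).bdd_mul (c := 1) (chi_int r).aestronglyMeasurable
    (ae_of_all _ fun z => by
      rw [Real.norm_of_nonneg (chi_mem _ _).1]; exact (chi_mem _ _).2)

theorem est_up (hc : Continuous Φ) (h0 : ∀ s, 0 ≤ Φ s) (h1 : ∀ s, 1 ≤ s → 1 + Real.log s ≤ Φ s)
    {β r : ℝ} (hβ : 0 < β) (hr : 0 ≤ r) : ∫ z, chi r ‖z‖ * uu Φ z ^ β ≤ π * r ^ 2 := by
  rw [← chi_integral hr]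
  exact integral_mono (chi_uu_int hc h1 hβ r) (chi_int r) fun z =>
    mul_le_of_le_one_right (chi_mem _ _).1
      (Real.rpow_le_one (uu_mem h0 z).1 (uu_mem h0 z).2 hβ.le)

theorem est_mono (hc : Continuous Φ) (h0 : ∀ s, 0 ≤ Φ s)
    (h1 : ∀ s, 1 ≤ s → 1 + Real.log s ≤ Φ s) {β : ℝ} (hβ : 0 < β) (r : ℝ) :
    ∫ z, chi r ‖z‖ * uu Φ z ^ β ≤ ∫ z, uu Φ z ^ β :=
  integral_mono (chi_uu_int hc h1 hβ r) (uu_int hc h1 hβ) fun z =>
    mul_le_of_le_one_left (Real.rpow_nonneg (uu_mem h0 z).1 _) (chi_mem _ _).2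

theorem exp_le_one_sub {m η : ℝ} (hm : 0 ≤ m) (hmη : m ≤ η) (hη : η ≤ 1 / 2) :
    Real.exp (-((1 + 2 * η) * m)) ≤ 1 - m := by
  have h1 := Real.add_one_le_exp ((1 + 2 * η) * m)
  have h2 : 0 ≤ (1 + 2 * η) * m := by nlinarith
  rw [Real.exp_neg, inv_le_comm₀ (Real.exp_pos _) (by linarith)]
  refine le_trans ?_ h1
  rw [inv_le_iff_one_le_mul₀ (by linarith)]
  have h3 : (1 + 2 * η) * m ≤ 2 * η := by nlinarith
  nlinarith

theorem est_low (hc : Continuous Φ) (h1 : ∀ s, 1 ≤ s → 1 + Real.log s ≤ Φ s)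
    {β r m η : ℝ} (hβ : 0 < β) (hr : 0 ≤ r) (hm : 0 ≤ m) (hmη : m ≤ η) (hη : η ≤ 1 / 2)
    (hΦ : ∀ s, 0 ≤ s → s ≤ r ^ 2 → Φ s ≤ m) :
    π * r ^ 2 * Real.exp (-((1 + 2 * η) * m * β)) ≤ ∫ z, chi r ‖z‖ * uu Φ z ^ β := by
  rw [← chi_integral hr, ← integral_mul_const]
  refine integral_mono ((chi_int r).mul_const _) (chi_uu_int hc h1 hβ r) fun z => ?_
  dsimp only
  unfold chi
  split_ifs with hz
  · rw [one_mul, one_mul, ← neg_mul, Real.exp_mul]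
    refine Real.rpow_le_rpow (Real.exp_pos _).le ((exp_le_one_sub hm hmη hη).trans ?_) hβ.le
    have := hΦ (‖z‖ ^ 2) (sq_nonneg _) (by gcongr)
    exact le_max_of_le_right (by linarith)
  · simp

/-- the tail integral -/
noncomputable def JJ (θ : ℝ) : ℝ := ∫ z : ℂ, (6 / (1 + ‖z‖ ^ 2)) ^ θ

theorem JJ_int {θ : ℝ} (hθ : 1 < θ) : Integrable fun z : ℂ => (6 / (1 + ‖z‖ ^ 2)) ^ θ := by
  have h1 := (integrable_rpow_neg_one_add_norm_sq (E := ℂ) (μ := volume) (r := 2 * θ)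
    (by rw [Complex.finrank_real_complex]; push_cast; linarith)).const_mul (6 ^ θ)
  refine h1.congr (ae_of_all _ fun z => ?_)
  dsimp only
  rw [Real.div_rpow (by norm_num) (by positivity), show -(2 * θ) / 2 = -θ by ring,
    Real.rpow_neg (by positivity), div_eq_mul_inv]

theorem est_tail (hc : Continuous Φ) (h0 : ∀ s, 0 ≤ Φ s)
    (h1 : ∀ s, 1 ≤ s → 1 + Real.log s ≤ Φ s) {β c a θ : ℝ} (hβ : 0 < β) (hθ : 1 < θ)
    (hcβ : θ ≤ c * β) (hΦ : ∀ s, 0 < s → s ≤ 1 → c * (a + Real.log s - 1) ≤ Φ s) :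
    ∫ z, uu Φ z ^ β ≤ Real.exp (-a) * JJ θ := by
  set r := Real.exp (-a / 2)
  have hr : 0 < r := Real.exp_pos _
  have hr2 : r ^ 2 = Real.exp (-a) := by rw [← Real.exp_nat_mul]; congr 1; push_cast; ring
  have e1 := Measure.integral_comp_inv_smul_of_nonneg volume
    (fun z : ℂ => (6 / (1 + ‖z‖ ^ 2)) ^ θ) hr.le
  rw [Complex.finrank_real_complex, smul_eq_mul, hr2] at e1
  rw [JJ, ← e1]
  refine integral_mono (uu_int hc h1 hβ) ((JJ_int hθ).comp_smul (inv_ne_zero hr.ne')) fun z => ?_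
  dsimp only
  set t := ‖r⁻¹ • z‖ ^ 2 with ht
  have ht0 : 0 ≤ t := sq_nonneg _
  have ht1 : ‖z‖ ^ 2 = Real.exp (-a) * t := by
    rw [ht, norm_smul, Real.norm_of_nonneg (inv_nonneg.2 hr.le), mul_pow, ← hr2]
    field_simp
  rcases le_or_gt t 5 with h5 | h5
  · exact (Real.rpow_le_one (uu_mem h0 z).1 (uu_mem h0 z).2 hβ.le).trans
      (Real.one_le_rpow ((one_le_div (by positivity)).2 (by linarith)) (by linarith))
  rcases le_total 1 (‖z‖ ^ 2) with h6 | h6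
  · rw [uu_zero h1 h6, Real.zero_rpow hβ.ne']; positivity
  have ht2 : 0 < t := by linarith
  have h7 := hΦ _ (by rw [ht1]; positivity) h6
  have h8 : a + Real.log (‖z‖ ^ 2) = Real.log t := by
    rw [ht1, Real.log_mul (Real.exp_pos _).ne' ht2.ne', Real.log_exp]; ring
  rw [h8] at h7
  have he : Real.exp 1 ≤ 3 := (Real.exp_one_lt_d9.trans (by norm_num)).le
  have h9 : 1 ≤ Real.log t := (Real.le_log_iff_exp_le ht2).2 (by linarith)
  have h10 : uu Φ z ≤ Real.exp (-(c * (Real.log t - 1))) :=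
    max_le (Real.exp_pos _).le (by linarith [Real.add_one_le_exp (-(c * (Real.log t - 1)))])
  calc uu Φ z ^ β ≤ Real.exp (-(c * (Real.log t - 1))) ^ β :=
        Real.rpow_le_rpow (uu_mem h0 z).1 h10 hβ.le
    _ ≤ Real.exp (1 - Real.log t) ^ θ := by
        rw [← Real.exp_mul, ← Real.exp_mul, Real.exp_le_exp]
        nlinarith
    _ ≤ (6 / (1 + t)) ^ θ := by
        refine Real.rpow_le_rpow (Real.exp_pos _).le ?_ (by linarith)
        rw [Real.exp_sub, Real.exp_log ht2, div_le_div_iff₀ ht2 (by positivity)]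
        nlinarith

theorem blow (hc : Continuous Φ) (h0 : ∀ s, 0 ≤ Φ s) (h1 : ∀ s, 1 ≤ s → 1 + Real.log s ≤ Φ s)
    (hs : ∀ η : ℝ, 0 < η → ∃ c a l : ℝ, 0 < c ∧ 0 ≤ l ∧ l ≤ a ∧ η⁻¹ ≤ l ∧ c * (l + 1) ≤ η ∧
      (∀ s, 0 < s → s ≤ 1 → c * (a + Real.log s - 1) ≤ Φ s) ∧
      (∀ s, 0 ≤ s → s ≤ Real.exp (-a) → Φ s ≤ c) ∧
      (∀ s, 0 ≤ s → s ≤ Real.exp (l - a) → Φ s ≤ c * (l + 1)))
    {p : ℝ} (hp1 : 1 < p) (hp2 : p < 2) {C : ℝ} (hC : 0 ≤ C) :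
    ∃ (r b : ℝ) (k : ℕ), 0 ≤ b ∧ b ≤ 1 ∧
      b * ∫ z, uu Φ z ^ ((k : ℝ) + 1) = ∫ z, chi r ‖z‖ * uu Φ z ^ ((k : ℝ) + 1) ∧
      C ^ p * ∫ z, chi r ‖z‖ * uu Φ z ^ (k * p / 2 + 1) <
        b ^ p * ∫ z, uu Φ z ^ (k * p / 2 + 1) := by
  obtain ⟨σ, hσ, hσ1, hσp⟩ : ∃ σ : ℝ, 0 < σ ∧ σ < 1 / 4 ∧ p * (1 + 4 * σ) = 2 := by
    refine ⟨(2 / p - 1) / 4, ?_, ?_, by field_simp; ring⟩
    · have := (one_lt_div (by linarith)).2 hp2
      linarith
    · have : 2 / p < 2 := by rw [div_lt_iff₀ (by linarith)]; linarith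
      linarith
  have hJ : 0 ≤ JJ (1 + σ) := integral_nonneg fun z => by positivity
  set b₁ := π * Real.exp (-6) / (JJ (1 + σ) + 1) with hb₁
  have hb₁0 : 0 < b₁ := by positivity
  obtain ⟨L, hL, hL1⟩ : ∃ L : ℝ, 0 < L ∧ (C / b₁) ^ p < Real.exp (σ / 2 * L - 2) := by
    refine ⟨2 / σ * ((C / b₁) ^ p + 2), by positivity, ?_⟩
    have := Real.add_one_le_exp (σ / 2 * (2 / σ * ((C / b₁) ^ p + 2)) - 2)
    have h2 : σ / 2 * (2 / σ * ((C / b₁) ^ p + 2)) - 2 = (C / b₁) ^ p := by field_simp; ring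
    linarith
  obtain ⟨c, a, l, hc0, hl0, hla, hηl, hcl, k1, k2, k3⟩ :=
    hs (min (σ / 3) L⁻¹) (lt_min (by positivity) (by positivity))
  have hLl : L ≤ l := le_trans ((le_inv_comm₀ hL (lt_min (by positivity) (by positivity))).2
    (min_le_right _ _)) hηl
  have hcl' : c * (l + 1) ≤ σ / 3 := hcl.trans (min_le_left _ _)
  have hc1 : c ≤ σ / 3 := by nlinarith
  set k := ⌈(1 + σ) / c⌉₊
  have hk1 : 1 + σ ≤ c * k := by
    have := Nat.le_ceil ((1 + σ) / c)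
    rw [div_le_iff₀ hc0] at this
    linarith
  have hk2 : c * k ≤ 1 + 2 * σ := by
    have := (Nat.ceil_lt_add_one (show 0 ≤ (1 + σ) / c by positivity)).le
    have h2 : c * k ≤ c * ((1 + σ) / c + 1) := by gcongr
    rw [mul_add, mul_div_cancel₀ _ hc0.ne'] at h2
    linarith
  have hk0 : (0 : ℝ) ≤ k := k.cast_nonneg
  have hβ1 : (0 : ℝ) < k + 1 := by positivity
  have hβ2 : (0 : ℝ) < k * p / 2 + 1 := by positivity
  have sq : ∀ x : ℝ, Real.exp (x / 2) ^ 2 = Real.exp x := fun x => by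
    rw [← Real.exp_nat_mul]; congr 1; push_cast; ring
  set r := Real.exp (-a / 2)
  have hr : 0 < r := Real.exp_pos _
  have E1 := est_low hc h1 hβ1 hr.le hc0.le (η := 1 / 2) (by linarith) le_rfl
    (by rw [sq]; exact k2)
  have E2 := est_up hc h0 h1 hβ2 hr.le
  have E3 := est_tail hc h0 h1 hβ1 (θ := 1 + σ) (by linarith) (by linarith) k1
  have E4 := (est_low hc h1 hβ2 (Real.exp_pos ((l - a) / 2)).le (by positivity) hcl'
    (by linarith) (by rw [sq]; exact k3)).trans (est_mono hc h0 h1 hβ2 _)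
  have E5 := est_mono hc h0 h1 hβ1 r
  rw [sq] at E1 E2 E4
  set A1 := ∫ z, chi r ‖z‖ * uu Φ z ^ ((k : ℝ) + 1)
  set A2 := ∫ z, chi r ‖z‖ * uu Φ z ^ (k * p / 2 + 1)
  set A3 := ∫ z, uu Φ z ^ ((k : ℝ) + 1)
  set A4 := ∫ z, uu Φ z ^ (k * p / 2 + 1)
  have hε := Real.exp_pos (-a)
  have F1 : π * Real.exp (-a) * Real.exp (-6) ≤ A1 := by
    refine le_trans ?_ E1
    gcongr
    linarith
  have hA1 : 0 < A1 := lt_of_lt_of_le (by positivity) F1
  have hA3 : 0 < A3 := hA1.trans_le E5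
  have F2 : b₁ ≤ A1 / A3 := by
    rw [hb₁, div_le_div_iff₀ (by positivity) hA3]
    calc π * Real.exp (-6) * A3 ≤ π * Real.exp (-6) * (Real.exp (-a) * (JJ (1 + σ) + 1)) := by
          gcongr
          nlinarith
      _ = π * Real.exp (-a) * Real.exp (-6) * (JJ (1 + σ) + 1) := by ring
      _ ≤ A1 * (JJ (1 + σ) + 1) := by gcongr
  have F4 : π * Real.exp (-a) * Real.exp (σ / 2 * L - 2) ≤ A4 := by
    refine le_trans ?_ E4
    rw [mul_assoc, mul_assoc, ← Real.exp_add, ← Real.exp_add]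
    refine mul_le_mul_of_nonneg_left (Real.exp_le_exp.2 ?_) Real.pi_pos.le
    have g1 : (1 + 2 * (σ / 3)) * (c * k) ≤ 1 + 3 * σ := by nlinarith
    have g2 : (1 + 3 * σ) * (p / 2) ≤ 1 - σ / 2 := by nlinarith
    have g3 : (1 + 2 * (σ / 3)) * (c * k) * (p / 2) ≤ 1 - σ / 2 :=
      le_trans (by gcongr) g2
    have g4 : (1 + 2 * (σ / 3)) * (c * k) * (p / 2) * (l + 1) ≤ (1 - σ / 2) * (l + 1) := by
      gcongr
    have g5 : (1 + 2 * (σ / 3)) * (c * (l + 1)) ≤ 1 := by nlinarith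
    have g6 : σ / 2 * L ≤ σ / 2 * l := by gcongr
    linarith
  refine ⟨r, A1 / A3, k, by positivity, (div_le_one hA3).2 E5, div_mul_cancel₀ _ hA3.ne', ?_⟩
  rw [Real.div_rpow hC hb₁0.le, div_lt_iff₀ (by positivity)] at hL1
  calc C ^ p * A2 ≤ C ^ p * (π * Real.exp (-a)) := by gcongr
    _ < Real.exp (σ / 2 * L - 2) * b₁ ^ p * (π * Real.exp (-a)) := by gcongr
    _ = b₁ ^ p * (π * Real.exp (-a) * Real.exp (σ / 2 * L - 2)) := by ring
    _ ≤ (A1 / A3) ^ p * A4 := by gcongr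

end Pool.Agent.H6Z.Berg
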