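import Pool.Agent.H6Z.Berg.Geom

/-!
Fubini on the Reinhardt domain.
-/

set_option autoImplicit false

namespace Pool.Agent.H6Z.Berg

open Set Filter Topology MeasureTheory Function Metric
open scoped Real

/-- squared radius of the fibre -/
noncomputable def uu (Φ : ℝ → ℝ) (z : ℂ) : ℝ := max 0 (1 - Φ (‖z‖ ^ 2))

/-- moment of the unit disc -/
noncomputable def II (α : ℝ) : ℝ := ∫ w in ball (0 : ℂ) 1, ‖w‖ ^ α

theorem II_pos {α : ℝ} (hα : 0 ≤ α) : 0 < II α := by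
  have hc : Continuous fun w : ℂ => ‖w‖ ^ α := continuous_norm.rpow_const fun _ => Or.inr hα
  refine (setIntegral_pos_iff_support_of_nonneg_ae (ae_of_all _ fun w => by positivity)
    ((hc.continuousOn.integrableOn_compact (isCompact_closedBall 0 1)).mono_set
      ball_subset_closedBall)).2 ?_
  refine (hc.isOpen_support.inter isOpen_ball).measure_pos _ ⟨(1 / 2 : ℝ), ?_, ?_⟩
  · simp only [mem_support, Complex.norm_real]
    exact (Real.rpow_pos_of_pos (by norm_num) _).ne'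
  · simp only [mem_ball_zero_iff, Complex.norm_real]
    norm_num

theorem inner_int {α r : ℝ} (hα : 0 ≤ α) (hr : 0 ≤ r) :
    ∫ w in ball (0 : ℂ) r, ‖w‖ ^ α = r ^ (α + 2) * II α := by
  rcases hr.eq_or_lt with rfl | hr
  · simp [Real.zero_rpow (by linarith : α + 2 ≠ 0)]
  have h1 := Measure.setIntegral_comp_smul_of_pos volume (fun w : ℂ => ‖w‖ ^ α) (ball 0 1) hr
  rw [smul_unitBall_of_pos hr, Complex.finrank_real_complex] at h1
  have h2 : ∀ w : ℂ, ‖r • w‖ ^ α = r ^ α * ‖w‖ ^ α := fun w => by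
    rw [norm_smul, Real.norm_of_nonneg hr.le, Real.mul_rpow hr.le (norm_nonneg _)]
  simp only [h2, integral_const_mul, smul_eq_mul] at h1
  rw [Real.rpow_add hr, II, mul_comm (r ^ α), mul_assoc, h1, Real.rpow_two]
  field_simp

variable {Φ : ℝ → ℝ}

theorem Om_open (hc : Continuous Φ) : IsOpen (Om Φ) := by
  refine isOpen_lt ?_ continuous_const
  unfold rho
  fun_prop

theorem Om_fin (h0 : ∀ s, 0 ≤ Φ s) (h1 : ∀ s, 1 ≤ s → 1 + Real.log s ≤ Φ s) :
    IsFiniteMeasure (volume.restrict (Om Φ)) :=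
  isFiniteMeasure_restrict.2 ((measure_mono (Om_bounded h0 h1)).trans_lt
    measure_closedBall_lt_top).ne

theorem Om_memLp {E : Type*} [NormedAddCommGroup E] (hc : Continuous Φ) (h0 : ∀ s, 0 ≤ Φ s)
    (h1 : ∀ s, 1 ≤ s → 1 + Real.log s ≤ Φ s) {F : (Fin 2 → ℂ) → E}
    (hF : AEStronglyMeasurable F (volume.restrict (Om Φ))) (B : ℝ)
    (hB : ∀ x : Fin 2 → ℂ, ‖x 1‖ ≤ 1 → ‖F x‖ ≤ B) (p : ENNReal) :
    MemLp F p (volume.restrict (Om Φ)) := by
  have := Om_fin h0 h1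
  refine MemLp.of_bound hF B ((ae_restrict_iff' (Om_open hc).measurableSet).2
    (ae_of_all _ fun x hx => hB x ?_))
  exact (sq_le_one_iff₀ (norm_nonneg _)).1 (le_one_of h0 h1 (le_of_lt hx)).2

theorem Om_int (hc : Continuous Φ) (h0 : ∀ s, 0 ≤ Φ s)
    (h1 : ∀ s, 1 ≤ s → 1 + Real.log s ≤ Φ s) {G : ℝ → ℝ} (hG : Measurable G)
    (hB : ∀ t, |G t| ≤ 1) {α : ℝ} (hα : 0 ≤ α) :
    IntegrableOn (fun x : Fin 2 → ℂ => G ‖x 0‖ * ‖x 1‖ ^ α) (Om Φ) := by
  refine memLp_one_iff_integrable.1 (Om_memLp hc h0 h1 (Measurable.aestronglyMeasurable ?_) 1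
    (fun x hx => ?_) 1)
  · exact (hG.comp (measurable_pi_apply 0).norm).mul ((measurable_pi_apply 1).norm.pow_const α)
  · rw [norm_mul, Real.norm_of_nonneg (by positivity : 0 ≤ ‖x 1‖ ^ α), Real.norm_eq_abs]
    exact mul_le_one₀ (hB _) (by positivity) (Real.rpow_le_one (norm_nonneg _) hx hα)

theorem fub (hc : Continuous Φ) (h0 : ∀ s, 0 ≤ Φ s)
    (h1 : ∀ s, 1 ≤ s → 1 + Real.log s ≤ Φ s) {G : ℝ → ℝ} (hG : Measurable G)
    (hB : ∀ t, |G t| ≤ 1) {α : ℝ} (hα : 0 ≤ α) :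
    ∫ x in Om Φ, G ‖x 0‖ * ‖x 1‖ ^ α = II α * ∫ z : ℂ, G ‖z‖ * uu Φ z ^ (α / 2 + 1) := by
  have hm := (Om_open hc).measurableSet
  have i1 := (integrable_indicator_iff hm).2 (Om_int hc h0 h1 hG hB hα)
  have mp := (volume_preserving_finTwoArrow ℂ).symm
  have i2 : Integrable (fun p : ℂ × ℂ => (Om Φ).indicator
      (fun x : Fin 2 → ℂ => G ‖x 0‖ * ‖x 1‖ ^ α) (MeasurableEquiv.finTwoArrow.symm p))
      (volume.prod volume) := mp.integrable_comp_of_integrable i1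
  rw [← integral_indicator hm, ← mp.integral_comp', Measure.volume_eq_prod, integral_prod _ i2,
    ← integral_const_mul]
  refine integral_congr_ae (ae_of_all _ fun z => ?_)
  have e1 : ∀ w : ℂ, (Om Φ).indicator (fun x : Fin 2 → ℂ => G ‖x 0‖ * ‖x 1‖ ^ α)
      (MeasurableEquiv.finTwoArrow.symm (z, w)) =
      (ball (0 : ℂ) (√(uu Φ z))).indicator (fun w => G ‖z‖ * ‖w‖ ^ α) w := fun w => by
    have e2 : (MeasurableEquiv.finTwoArrow.symm (z, w) : Fin 2 → ℂ) = ![z, w] := rfl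
    have e3 : ![z, w] ∈ Om Φ ↔ w ∈ ball (0 : ℂ) (√(uu Φ z)) := by
      rw [mem_ball_zero_iff, Real.lt_sqrt (norm_nonneg _), uu, lt_max_iff]
      simp only [Om, rho, mem_ofPred_eq, Matrix.cons_val_one, Matrix.cons_val_fin_one,
        Matrix.cons_val_zero]
      constructor
      · intro h; right; linarith
      · rintro (h | h)
        · exact absurd h (not_lt.2 (sq_nonneg _))
        · linarith
    rw [e2]
    by_cases hw : w ∈ ball (0 : ℂ) (√(uu Φ z))
    · rw [indicator_of_mem hw, indicator_of_mem (e3.2 hw)]; simp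
    · rw [indicator_of_notMem hw, indicator_of_notMem (mt e3.1 hw)]
  simp only [e1]
  rw [integral_indicator measurableSet_ball, integral_const_mul,
    inner_int hα (Real.sqrt_nonneg _), Real.sqrt_eq_rpow, 
    ← Real.rpow_mul (show 0 ≤ uu Φ z from le_max_left _ _)]
  rw [show 1 / 2 * (α + 2) = α / 2 + 1 by ring]
  ring

end Pool.Agent.H6Z.Berg
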