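import Mathlib

/-!
The Reinhardt domain attached to a radial profile.
-/

set_option autoImplicit false

namespace Pool.Agent.H6Z.Berg

open Set Filter Topology
open scoped ContDiff

/-- the defining function -/
noncomputable def rho (Φ : ℝ → ℝ) (x : Fin 2 → ℂ) : ℝ := ‖x 1‖ ^ 2 + Φ (‖x 0‖ ^ 2) - 1

/-- the domain -/
def Om (Φ : ℝ → ℝ) : Set (Fin 2 → ℂ) := {z | rho Φ z < 0}

variable {Φ : ℝ → ℝ}

theorem rho_contDiff (h : ContDiff ℝ ∞ Φ) : ContDiff ℝ ∞ (rho Φ) := by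
  have h0 : ∀ i : Fin 2, ContDiff ℝ ∞ fun x : Fin 2 → ℂ => ‖x i‖ ^ 2 := fun i =>
    (contDiff_apply ℝ ℂ i).norm_sq ℝ
  exact ((h0 1).add (h.comp (h0 0))).sub contDiff_const

theorem nsq_hasFDerivAt (i : Fin 2) (y : Fin 2 → ℂ) :
    HasFDerivAt (fun x : Fin 2 → ℂ => ‖x i‖ ^ 2)
      (2 • (innerSL ℝ (y i)).comp (ContinuousLinearMap.proj (R := ℝ) i)) y :=
  (ContinuousLinearMap.proj (R := ℝ) (φ := fun _ : Fin 2 => ℂ) i).hasFDerivAt.norm_sq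

theorem fderiv_rho (h : ContDiff ℝ ∞ Φ) (y v : Fin 2 → ℂ) :
    fderiv ℝ (rho Φ) y v =
      2 * inner ℝ (v 1) (y 1) + deriv Φ (‖y 0‖ ^ 2) * (2 * inner ℝ (v 0) (y 0)) := by
  have hd : Differentiable ℝ Φ := h.differentiable (by simp)
  have h1 := ((nsq_hasFDerivAt 1 y).fun_add
    ((hd _).hasDerivAt.comp_hasFDerivAt y (nsq_hasFDerivAt 0 y))).sub_const 1
  have h2 : fderiv ℝ (rho Φ) y = _ := h1.fderiv
  rw [h2]
  simp [real_inner_comm]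
  ring

theorem fderiv_fderiv_rho (h : ContDiff ℝ ∞ Φ) (z v : Fin 2 → ℂ) :
    fderiv ℝ (fderiv ℝ (rho Φ)) z v v = 2 * ‖v 1‖ ^ 2 +
      (deriv (deriv Φ) (‖z 0‖ ^ 2) * (2 * inner ℝ (v 0) (z 0)) ^ 2 +
        deriv Φ (‖z 0‖ ^ 2) * (2 * ‖v 0‖ ^ 2)) := by
  have hd2 : Differentiable ℝ (deriv Φ) := (contDiff_infty_iff_deriv.1 h).2.differentiable (by simp)
  have hc : DifferentiableAt ℝ (fderiv ℝ (rho Φ)) z :=
    ((contDiff_infty_iff_fderiv.1 (rho_contDiff h)).2.differentiable (by simp)) z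
  have h1 := fderiv_clm_apply hc (differentiableAt_const v)
  have h2 : fderiv ℝ (fderiv ℝ (rho Φ)) z v v =
      fderiv ℝ (fun y => fderiv ℝ (rho Φ) y v) z v := by
    rw [h1]; simp
  have hi : ∀ i : Fin 2, HasFDerivAt (fun y : Fin 2 → ℂ => 2 * inner ℝ (v i) (y i))
      ((2 : ℝ) • (innerSL ℝ (v i)).comp (ContinuousLinearMap.proj (R := ℝ) i)) z := fun i =>
    ((innerSL ℝ (v i)).comp
      (ContinuousLinearMap.proj (R := ℝ) (φ := fun _ : Fin 2 => ℂ) i)).hasFDerivAt.const_mul 2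
  have h3 := (hi 1).fun_add
    (((hd2 _).hasDerivAt.comp_hasFDerivAt z (nsq_hasFDerivAt 0 z)).fun_mul (hi 0))
  have h4 : (fun y => fderiv ℝ (rho Φ) y v) = fun y =>
      2 * inner ℝ (v 1) (y 1) + deriv Φ (‖y 0‖ ^ 2) * (2 * inner ℝ (v 0) (y 0)) :=
    funext fun y => fderiv_rho h y v
  have h5 : fderiv ℝ (fun y : Fin 2 → ℂ =>
      2 * inner ℝ (v 1) (y 1) + deriv Φ (‖y 0‖ ^ 2) * (2 * inner ℝ (v 0) (y 0))) z = _ := h3.fderiv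
  rw [h2, h4, h5]
  simp only [add_apply, smul_apply,
    ContinuousLinearMap.comp_apply, ContinuousLinearMap.proj_apply, innerSL_apply_apply,
    real_inner_self_eq_norm_sq, smul_eq_mul, nsmul_eq_mul, Function.comp, real_inner_comm (v 0)]
  push_cast
  ring

theorem le_one_of (h0 : ∀ s, 0 ≤ Φ s) (h1 : ∀ s, 1 ≤ s → 1 + Real.log s ≤ Φ s) {z : Fin 2 → ℂ}
    (hz : rho Φ z ≤ 0) : ‖z 0‖ ^ 2 ≤ 1 ∧ ‖z 1‖ ^ 2 ≤ 1 := by
  unfold rho at hz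
  constructor
  · by_contra hc
    push Not at hc
    have := h1 _ hc.le
    have := Real.log_pos hc
    nlinarith [sq_nonneg ‖z 1‖]
  · linarith [h0 (‖z 0‖ ^ 2)]

theorem levi (h : ContDiff ℝ ∞ Φ) (z v : Fin 2 → ℂ)
    (hz : 0 ≤ deriv Φ (‖z 0‖ ^ 2) + ‖z 0‖ ^ 2 * deriv (deriv Φ) (‖z 0‖ ^ 2)) :
    0 ≤ fderiv ℝ (fderiv ℝ (rho Φ)) z v v +
      fderiv ℝ (fderiv ℝ (rho Φ)) z (Complex.I • v) (Complex.I • v) := by
  rw [fderiv_fderiv_rho h, fderiv_fderiv_rho h]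
  have h1 : ∀ i, ‖(Complex.I • v) i‖ = ‖v i‖ := fun i => by simp
  have h2 : inner ℝ (v 0) (z 0) ^ 2 + inner ℝ ((Complex.I • v) 0) (z 0) ^ 2 =
      ‖z 0‖ ^ 2 * ‖v 0‖ ^ 2 := by
    simp only [Pi.smul_apply, smul_eq_mul, Complex.inner, Complex.sq_norm, Complex.normSq_apply]
    simp
    ring
  rw [h1, h1]
  have h3 := mul_nonneg (sq_nonneg ‖v 0‖) hz
  have h4 := sq_nonneg ‖v 1‖
  have h5 : deriv (deriv Φ) (‖z 0‖ ^ 2) * (2 * inner ℝ (v 0) (z 0)) ^ 2 +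
      deriv (deriv Φ) (‖z 0‖ ^ 2) * (2 * inner ℝ ((Complex.I • v) 0) (z 0)) ^ 2 =
      4 * deriv (deriv Φ) (‖z 0‖ ^ 2) * (‖z 0‖ ^ 2 * ‖v 0‖ ^ 2) := by
    rw [← h2]; ring
  nlinarith

theorem grad_ne (h : ContDiff ℝ ∞ Φ) (h00 : Φ 0 = 0) (z : Fin 2 → ℂ) (hz : rho Φ z = 0)
    (hd : Φ (‖z 0‖ ^ 2) = 1 → deriv Φ (‖z 0‖ ^ 2) ≠ 0) : fderiv ℝ (rho Φ) z ≠ 0 := by
  intro h0
  have h1 := fderiv_rho h z ![0, z 1]
  have h2 := fderiv_rho h z ![z 0, 0]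
  rw [h0] at h1 h2
  simp only [zero_apply, Matrix.cons_val_one, Matrix.cons_val_zero,
    Matrix.cons_val_fin_one, inner_zero_left, real_inner_self_eq_norm_sq] at h1 h2
  unfold rho at hz
  have h3 : Φ (‖z 0‖ ^ 2) = 1 := by linarith
  have h4 := hd h3
  have h5 : ‖z 0‖ ^ 2 = 0 := by
    have : deriv Φ (‖z 0‖ ^ 2) * ‖z 0‖ ^ 2 = 0 := by linarith
    exact (mul_eq_zero.1 this).resolve_left h4
  rw [h5, h00] at h3
  norm_num at h3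

theorem Om_bounded (h0 : ∀ s, 0 ≤ Φ s) (h1 : ∀ s, 1 ≤ s → 1 + Real.log s ≤ Φ s) :
    Om Φ ⊆ Metric.closedBall 0 1 := fun z hz => by
  obtain ⟨k1, k2⟩ := le_one_of h0 h1 (le_of_lt hz)
  rw [mem_closedBall_zero_iff, pi_norm_le_iff_of_nonneg zero_le_one, Fin.forall_fin_two]
  exact ⟨(sq_le_one_iff₀ (norm_nonneg _)).1 k1, (sq_le_one_iff₀ (norm_nonneg _)).1 k2⟩

theorem Om_reinhardt (h0 : ∀ s, 0 ≤ Φ s) (h1 : ∀ s, 1 ≤ s → 1 + Real.log s ≤ Φ s)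
    (hm : ∀ s t, 0 ≤ s → s ≤ t → t ≤ 1 → Φ s ≤ Φ t) {z y : Fin 2 → ℂ} (hz : z ∈ Om Φ)
    (k0 : ‖y 0‖ ≤ ‖z 0‖) (k1 : ‖y 1‖ ≤ ‖z 1‖) : y ∈ Om Φ := by
  have a1 := hm (‖y 0‖ ^ 2) (‖z 0‖ ^ 2) (sq_nonneg _) (by gcongr) (le_one_of h0 h1 (le_of_lt hz)).1
  have a2 : ‖y 1‖ ^ 2 ≤ ‖z 1‖ ^ 2 := by gcongr
  simp only [Om, rho, mem_ofPred_eq] at hz ⊢
  linarith

theorem Om_connected (h0 : ∀ s, 0 ≤ Φ s) (h00 : Φ 0 = 0)
    (h1 : ∀ s, 1 ≤ s → 1 + Real.log s ≤ Φ s)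
    (hm : ∀ s t, 0 ≤ s → s ≤ t → t ≤ 1 → Φ s ≤ Φ t) : IsConnected (Om Φ) := by
  have hz : (0 : Fin 2 → ℂ) ∈ Om Φ := by simp [Om, rho, h00]
  have : StarConvex ℝ 0 (Om Φ) := by
    intro y hy a b _ hb hab
    have hb1 : b ≤ 1 := by linarith
    have k : ∀ i, ‖(a • (0 : Fin 2 → ℂ) + b • y) i‖ ≤ ‖y i‖ := fun i => by
      simp only [smul_zero, zero_add, Pi.smul_apply, norm_smul, Real.norm_of_nonneg hb]
      exact mul_le_of_le_one_left (norm_nonneg _) hb1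
    exact Om_reinhardt h0 h1 hm hy (k 0) (k 1)
  exact (this.isPathConnected hz).isConnected

end Pool.Agent.H6Z.Berg
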