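import Mathlib

/-!
A smooth radial subharmonic profile with long plateaus of the flux.
-/

set_option autoImplicit false

namespace Pool.Agent.H6Z.Berg

open Set Filter Topology
open scoped ContDiff

/-- a smooth convex function vanishing on the negative axis with slope one at infinity -/
noncomputable def lam (x : ℝ) : ℝ := ∫ t in (0 : ℝ)..x, Real.smoothTransition t

theorem lam_hasDerivAt (x : ℝ) : HasDerivAt lam (Real.smoothTransition x) x :=
  (Real.smoothTransition.continuous.integral_hasStrictDerivAt 0 x).hasDerivAt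

theorem deriv_lam : deriv lam = Real.smoothTransition := funext fun x => (lam_hasDerivAt x).deriv

theorem lam_differentiable : Differentiable ℝ lam := fun x => (lam_hasDerivAt x).differentiableAt

theorem lam_contDiff : ContDiff ℝ ∞ lam :=
  contDiff_infty_iff_deriv.2 ⟨lam_differentiable, deriv_lam ▸ Real.smoothTransition.contDiff⟩

theorem lam_convex : ConvexOn ℝ univ lam :=
  Monotone.convexOn_univ_of_deriv lam_differentiable (deriv_lam ▸ Real.smoothTransition.monotone)

theorem lam_mono : Monotone lam :=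
  monotone_of_deriv_nonneg lam_differentiable fun x => deriv_lam ▸ Real.smoothTransition.nonneg x

theorem lam_zero : lam 0 = 0 := by simp [lam]

theorem lam_of_nonpos {x : ℝ} (hx : x ≤ 0) : lam x = 0 := by
  rw [lam, intervalIntegral.integral_congr (g := fun _ => 0), intervalIntegral.integral_zero]
  intro t ht
  rw [uIcc_of_ge hx] at ht
  exact Real.smoothTransition.zero_of_nonpos ht.2

theorem lam_nonneg (x : ℝ) : 0 ≤ lam x := by
  rcases le_total x 0 with h | h
  · rw [lam_of_nonpos h]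
  · rw [← lam_zero]; exact lam_mono h

theorem lam_le {x : ℝ} (hx : 0 ≤ x) : lam x ≤ x := by
  have : Monotone fun x => x - lam x :=
    monotone_of_deriv_nonneg (differentiable_id.sub lam_differentiable) fun x => by
      rw [((hasDerivAt_id' x).fun_sub (lam_hasDerivAt x)).deriv]
      linarith [Real.smoothTransition.le_one x]
  have h := this hx
  simp only [lam_zero] at h
  linarith

theorem le_lam (x : ℝ) : x - 1 ≤ lam x := by
  rcases le_or_gt x 1 with h | h
  · linarith [lam_nonneg x]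
  · have h1 := lam_convex.le_slope_of_hasDerivAt (mem_univ _) (mem_univ _) h (lam_hasDerivAt 1)
    rw [Real.smoothTransition.one, slope_def_field, le_div_iff₀ (by linarith)] at h1
    linarith [lam_nonneg 1]

/-- the truncated logarithm at scale `exp (-a)` -/
noncomputable def LL (a s : ℝ) : ℝ := lam (Real.log (Real.exp a * s))

theorem LL_exp (a x : ℝ) : LL a (Real.exp x) = lam (a + x) := by
  rw [LL, ← Real.exp_add, Real.log_exp]

theorem LL_pos (a : ℝ) {s : ℝ} (hs : 0 < s) : LL a s = lam (a + Real.log s) := by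
  rw [← LL_exp, Real.exp_log hs]

theorem LL_zero (a : ℝ) : LL a 0 = 0 := by simp [LL, lam_zero]

theorem LL_nonneg (a s : ℝ) : 0 ≤ LL a s := lam_nonneg _

theorem LL_contDiff (a : ℝ) : ContDiff ℝ ∞ (LL a) := by
  have h : ContDiff ℝ ∞ fun t : ℝ => lam (Real.log t) := by
    rw [contDiff_iff_contDiffAt]
    intro t
    by_cases ht : t = 0
    · subst ht
      refine (contDiffAt_const (c := (0 : ℝ))).congr_of_eventuallyEq ?_
      filter_upwards [Metric.ball_mem_nhds (0 : ℝ) one_pos] with t ht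
      rw [mem_ball_zero_iff, Real.norm_eq_abs] at ht
      rw [← Real.log_abs]
      exact lam_of_nonpos (Real.log_nonpos (abs_nonneg t) ht.le)
    · exact lam_contDiff.contDiffAt.comp t (Real.contDiffAt_log.2 ht)
  exact h.comp (contDiff_const.mul contDiff_id)

theorem LL_mono (a : ℝ) {s t : ℝ} (hs : 0 ≤ s) (hst : s ≤ t) : LL a s ≤ LL a t := by
  rcases hs.eq_or_lt with h | h
  · rw [← h, LL_zero]; exact LL_nonneg _ _
  · rw [LL_pos a h, LL_pos a (h.trans_le hst)]
    exact lam_mono (by linarith [Real.log_le_log h hst])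

theorem LL_le {a b s : ℝ} (hs : 0 ≤ s) (hb : s ≤ Real.exp (-b)) (hab : b ≤ a) :
    LL a s ≤ a - b := by
  refine (LL_mono a hs hb).trans ?_
  rw [LL_exp]
  exact lam_le (by linarith)

theorem LL_eq_zero {a b s : ℝ} (hs : 0 ≤ s) (hb : s ≤ Real.exp (-b)) (hab : a ≤ b) :
    LL a s = 0 := by
  refine le_antisymm ((LL_mono a hs hb).trans ?_) (LL_nonneg _ _)
  rw [LL_exp, lam_of_nonpos (by linarith)]

/-- the cut-off -/
noncomputable def kap : ContDiffBump (0 : ℝ) := ⟨2, 3, by norm_num, by norm_num⟩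

theorem kap_one {s : ℝ} (h0 : 0 ≤ s) (h : s ≤ 2) : kap s = 1 :=
  kap.one_of_mem_closedBall (by
    rw [mem_closedBall_zero_iff, Real.norm_of_nonneg h0]; exact h)

/-- the scales -/
def sc (j : ℕ) : ℝ := ((j : ℝ) + 2) ^ 2

theorem sc_mono {i j : ℕ} (h : i ≤ j) : sc i ≤ sc j := by
  have : (i : ℝ) ≤ j := by exact_mod_cast h
  unfold sc
  gcongr

theorem sc_ge (j : ℕ) : 4 ≤ sc j := by
  have := sc_mono (Nat.zero_le j)
  simp only [sc] at this ⊢
  norm_num at this ⊢
  linarith

noncomputable def gg (j : ℕ) (s : ℝ) : ℝ := kap s * LL (sc j) s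

theorem gg_contDiff (j : ℕ) : ContDiff ℝ ∞ (gg j) := kap.contDiff.mul (LL_contDiff _)

theorem gg_nonneg (j : ℕ) (s : ℝ) : 0 ≤ gg j s := mul_nonneg kap.nonneg (LL_nonneg _ _)

theorem gg_eq (j : ℕ) {s : ℝ} (h0 : 0 ≤ s) (h : s ≤ 2) : gg j s = LL (sc j) s := by
  rw [gg, kap_one h0 h, one_mul]

theorem exists_b (n : ℕ) : ∃ b : ℝ, 0 < b ∧ ∀ r : ℝ, 0 < r → r ≤ b → ∀ i ≤ n, ∀ x,
    ‖iteratedFDeriv ℝ i (r • gg n) x‖ ≤ (1 / 2) ^ n := by
  have : ∀ i, ∃ R, ∀ x, ‖iteratedFDeriv ℝ i (gg n) x‖ ≤ R := fun i =>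
    (HasCompactSupport.iteratedFDeriv (kap.hasCompactSupport.mul_right (f' := LL (sc n)))
      i).exists_bound_of_continuous ((gg_contDiff n).continuous_iteratedFDeriv (mod_cast le_top))
  choose R hR using this
  set M := ∑ i ∈ Finset.range (n + 1), |R i| + 1 with hM
  have hM0 : 0 < M := by positivity
  have IR : ∀ i ≤ n, R i ≤ M := fun i hi => by
    have := Finset.single_le_sum (f := fun i => |R i|) (fun i _ => abs_nonneg (R i))
      (Finset.mem_range.2 (Nat.lt_succ_of_le hi))
    linarith [le_abs_self (R i)]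
  refine ⟨M⁻¹ * (1 / 2) ^ n, by positivity, fun r hr hrb i hi x => ?_⟩
  rw [iteratedFDeriv_const_smul_apply ((gg_contDiff n).contDiffAt.of_le (mod_cast le_top)),
    norm_smul, Real.norm_of_nonneg hr.le]
  calc r * ‖iteratedFDeriv ℝ i (gg n) x‖ ≤ M⁻¹ * (1 / 2) ^ n * M := by
        gcongr; exact (hR i x).trans (IR i hi)
    _ = (1 / 2) ^ n := by field_simp

theorem exists_c : ∃ c : ℕ → ℝ, (∀ n, 0 < c n) ∧ (∀ n, c (n + 1) * sc (n + 1) ≤ c n / 2) ∧
    c 0 ≤ 1 ∧ ∀ n, ∀ i ≤ n, ∀ x, ‖iteratedFDeriv ℝ i (c n • gg n) x‖ ≤ (1 / 2) ^ n := by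
  choose b hb hb' using exists_b
  let c : ℕ → ℝ := fun n => Nat.rec (min (b 0) 1)
    (fun n x => min (b (n + 1)) (x / 2 / sc (n + 1))) n
  have hc : ∀ n, c (n + 1) = min (b (n + 1)) (c n / 2 / sc (n + 1)) := fun n => rfl
  have hpos : ∀ n, 0 < c n := by
    intro n
    induction n with
    | zero => exact lt_min (hb 0) one_pos
    | succ n ih =>
      rw [hc]
      have := sc_ge (n + 1)
      exact lt_min (hb _) (by positivity)
  refine ⟨c, hpos, fun n => ?_, min_le_right _ _, fun n => hb' n _ (hpos n) ?_⟩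
  · have h1 := sc_ge (n + 1)
    rw [← le_div_iff₀ (by positivity), hc]
    exact min_le_right _ _
  · cases n with
    | zero => exact min_le_left _ _
    | succ n => exact min_le_left _ _

theorem exists_Phi : ∃ Φ : ℝ → ℝ, ContDiff ℝ ∞ Φ ∧ (∀ s, 0 ≤ Φ s) ∧ Φ 0 = 0 ∧
    (∀ s, 1 ≤ s → 1 + Real.log s ≤ Φ s) ∧ (∀ s t, 0 ≤ s → s ≤ t → t ≤ 1 → Φ s ≤ Φ t) ∧
    (∀ s, 0 ≤ s → s ≤ 1 → 0 ≤ deriv Φ s + s * deriv (deriv Φ) s) ∧
    (∀ s, 0 ≤ s → s ≤ 1 → Φ s = 1 → deriv Φ s ≠ 0) ∧
    ∀ η : ℝ, 0 < η → ∃ c a l : ℝ, 0 < c ∧ 0 ≤ l ∧ l ≤ a ∧ η⁻¹ ≤ l ∧ c * (l + 1) ≤ η ∧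
      (∀ s, 0 < s → s ≤ 1 → c * (a + Real.log s - 1) ≤ Φ s) ∧
      (∀ s, 0 ≤ s → s ≤ Real.exp (-a) → Φ s ≤ c) ∧
      (∀ s, 0 ≤ s → s ≤ Real.exp (l - a) → Φ s ≤ c * (l + 1)) := by
  obtain ⟨c, hc0, hc1, hc2, hc3⟩ := exists_c
  have hgeo : Summable fun n : ℕ => (1 / 2 : ℝ) ^ n := summable_geometric_two
  have S : ∀ x, Summable fun n => c n * gg n x := fun x => by
    refine .of_norm_bounded hgeo fun n => ?_
    simpa only [norm_iteratedFDeriv_zero] using! hc3 n 0 zero_le x
  have hnn : ∀ n x, 0 ≤ c n * gg n x := fun n x => mul_nonneg (hc0 n).le (gg_nonneg n x)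
  set Φ : ℝ → ℝ := fun s => LL 2 s + ∑' n, c n * gg n s with hΦ
  have hsm : ContDiff ℝ ∞ Φ := by
    refine (LL_contDiff 2).add ?_
    refine contDiff_tsum_of_eventually (fun k => (gg_contDiff k).const_smul (c k))
      (fun k _ => hgeo) ?_
    intro i _
    simp only [Nat.cofinite_eq_atTop, Filter.eventually_atTop]
    exact ⟨i, fun n hn x => hc3 _ _ hn _⟩
  have h0 : ∀ s, 0 ≤ Φ s := fun s => add_nonneg (LL_nonneg _ _) (tsum_nonneg fun n => hnn n s)
  have h00 : Φ 0 = 0 := by simp [hΦ, gg, LL_zero]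
  have hconv : ConvexOn ℝ (Iio (Real.log 2)) fun x => Φ (Real.exp x) := by
    refine ⟨convex_Iio _, fun x hx y hy a b ha hb hab => ?_⟩
    have hz : a • x + b • y ∈ Iio (Real.log 2) := convex_Iio _ hx hy ha hb hab
    have e : ∀ w ∈ Iio (Real.log 2), ∀ n, gg n (Real.exp w) = lam (sc n + w) := fun w hw n => by
      rw [gg_eq n (Real.exp_pos w).le, LL_exp]
      rw [← Real.exp_log (show (0 : ℝ) < 2 by norm_num)]
      exact Real.exp_le_exp.2 (le_of_lt hw)
    have k : ∀ t, lam (t + (a • x + b • y)) ≤ a * lam (t + x) + b * lam (t + y) := fun t => by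
      have := lam_convex.2 (mem_univ (t + x)) (mem_univ (t + y)) ha hb hab
      simp only [smul_eq_mul] at this ⊢
      rwa [show a * (t + x) + b * (t + y) = t + (a * x + b * y) by linear_combination t * hab]
        at this
    have h1 : ∑' n, c n * gg n (Real.exp (a • x + b • y)) ≤
        a * ∑' n, c n * gg n (Real.exp x) + b * ∑' n, c n * gg n (Real.exp y) := by
      rw [← tsum_mul_left, ← tsum_mul_left, ← ((S _).mul_left a).tsum_add ((S _).mul_left b)]
      refine (S _).tsum_le_tsum (fun n => ?_) (((S _).mul_left a).add ((S _).mul_left b))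
      rw [e _ hz, e _ hx, e _ hy]
      have := mul_le_mul_of_nonneg_left (k (sc n)) (hc0 n).le
      linarith
    have h2 := k 2
    simp only [hΦ, LL_exp, smul_eq_mul] at h1 h2 ⊢
    linarith
  have hd1 : Differentiable ℝ Φ := hsm.differentiable (by simp)
  have hd2 : Differentiable ℝ (deriv Φ) := (contDiff_infty_iff_deriv.1 hsm).2.differentiable (by simp)
  have hg1 : ∀ x, HasDerivAt (fun x => Φ (Real.exp x)) (deriv Φ (Real.exp x) * Real.exp x) x :=
    fun x => (hd1 _).hasDerivAt.comp x (Real.hasDerivAt_exp x)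
  have hg1' : deriv (fun x => Φ (Real.exp x)) = fun x => deriv Φ (Real.exp x) * Real.exp x :=
    funext fun x => (hg1 x).deriv
  have hlog : ∀ s, 0 < s → s ≤ 1 → Real.log s ∈ Iio (Real.log 2) := fun s hs h1 =>
    Real.log_lt_log hs (by linarith)
  have tail : ∀ j s, 0 ≤ s → s ≤ 1 → ∑' n, c (n + (j + 1)) * gg (n + (j + 1)) s ≤ c j := by
    intro j s hs h1
    have k1 : ∀ n, c (n + (j + 1)) * sc (n + (j + 1)) ≤ c j / 2 / 2 ^ n := by
      intro n
      induction n with
      | zero => simpa using hc1 j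
      | succ n ih =>
        rw [show n + 1 + (j + 1) = n + (j + 1) + 1 by ring]
        have h2 := hc1 (n + (j + 1))
        have h3 := sc_ge (n + (j + 1))
        have h4 := hc0 (n + (j + 1))
        rw [pow_succ, ← div_div]
        nlinarith
    rw [← tsum_geometric_two' (c j)]
    refine ((summable_nat_add_iff (j + 1)).2 (S s)).tsum_le_tsum (fun n => le_trans ?_ (k1 n))
      (summable_geometric_two' _)
    refine mul_le_mul_of_nonneg_left ?_ (hc0 _).le
    rw [gg_eq _ hs (by linarith)]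
    have := LL_le (a := sc (n + (j + 1))) (b := 0) hs (by simpa using h1)
      (by linarith [sc_ge (n + (j + 1))])
    linarith
  refine ⟨Φ, hsm, h0, h00, fun s hs => ?_, fun s t hs hst ht => ?_, fun s hs h1 => ?_,
    fun s hs h1 h2 => ?_, fun η hη => ?_⟩
  · have h1 : 1 + Real.log s ≤ LL 2 s := by
      rw [LL_pos 2 (by linarith)]
      linarith [le_lam (2 + Real.log s)]
    have : 0 ≤ ∑' n, c n * gg n s := tsum_nonneg fun n => hnn n s
    simp only [hΦ]
    linarith
  · refine add_le_add (LL_mono 2 hs hst) ((S s).tsum_le_tsum (fun n => ?_) (S t))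
    rw [gg_eq n hs (by linarith), gg_eq n (hs.trans hst) (by linarith)]
    exact mul_le_mul_of_nonneg_left (LL_mono _ hs hst) (hc0 n).le
  · rcases hs.eq_or_lt with h | h
    · have : IsLocalMin Φ 0 := Eventually.of_forall fun x => by rw [h00]; exact h0 x
      rw [← h, this.deriv_eq_zero]; simp
    · have k1 := (hconv.monotoneOn_deriv fun x _ => (hg1 x).differentiableAt).derivWithin_nonneg
        (x := Real.log s)
      rw [derivWithin_of_isOpen isOpen_Iio (hlog s h h1), hg1'] at k1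
      have k2 := ((hd2 _).hasDerivAt.comp (Real.log s) (Real.hasDerivAt_exp (Real.log s))).mul
        (Real.hasDerivAt_exp (Real.log s))
      have k3 : deriv (fun x => deriv Φ (Real.exp x) * Real.exp x) (Real.log s) = _ := k2.deriv
      rw [k3] at k1
      simp only [Function.comp, Real.exp_log h] at k1
      have : 0 ≤ s * (deriv Φ s + s * deriv (deriv Φ) s) := by linarith
      exact (mul_nonneg_iff_of_pos_left h).1 this
  · have hs0 : 0 < s := by
      rcases hs.eq_or_lt with h | h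
      · rw [← h, h00] at h2; norm_num at h2
      · exact h
    have ht : Tendsto (fun x => Φ (Real.exp x)) atBot (𝓝 (Φ 0)) :=
      (hsm.continuous.tendsto 0).comp Real.tendsto_exp_atBot
    rw [h00] at ht
    obtain ⟨x, hx1, hx2⟩ := ((ht.eventually (gt_mem_nhds one_pos)).and
      (eventually_lt_atBot (Real.log s))).exists
    have k1 := hconv.slope_le_deriv (hx2.trans (hlog s hs0 h1)) (hlog s hs0 h1) hx2
      (hg1 _).differentiableAt
    rw [hg1', slope_def_field] at k1
    simp only [Real.exp_log hs0, h2] at k1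
    intro h3
    rw [h3, zero_mul] at k1
    have : 0 < (1 - Φ (Real.exp x)) / (Real.log s - x) := div_pos (by linarith) (by linarith)
    linarith
  · have hcj : ∀ j, c j ≤ (1 / 2) ^ j := by
      intro j
      induction j with
      | zero => simpa using hc2
      | succ j ih =>
        have h2 := hc1 j
        have h3 := sc_ge (j + 1)
        have h4 := hc0 (j + 1)
        rw [pow_succ]
        nlinarith
    obtain ⟨j, hj1, hj2⟩ : ∃ j : ℕ, (1 / 2 : ℝ) ^ j ≤ η ∧ η⁻¹ ≤ j :=
      (((tendsto_pow_atTop_nhds_zero_of_lt_one (r := (1 / 2 : ℝ)) (by norm_num)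
        (by norm_num)).eventually (ge_mem_nhds hη)).and
        (tendsto_natCast_atTop_atTop.eventually_ge_atTop η⁻¹)).exists
    have hj0 : (0 : ℝ) ≤ j := Nat.cast_nonneg j
    have hl : sc (j + 1) - sc j = 2 * j + 5 := by simp only [sc]; push_cast; ring
    have hup : ∀ s b, 0 ≤ s → s ≤ Real.exp (-b) → sc j ≤ b → b ≤ sc (j + 1) →
        Φ s ≤ c (j + 1) * (sc (j + 1) - b + 1) := by
      intro s b hs hb h1 h2
      have h4 := sc_ge j
      have hs1 : s ≤ 1 := hb.trans (Real.exp_le_one_iff.2 (by linarith))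
      have k1 := ((S s).sum_add_tsum_nat_add (j + 1 + 1)).symm
      have k2 := tail (j + 1) s hs hs1
      have k3 : ∑ i ∈ Finset.range (j + 1), c i * gg i s = 0 := Finset.sum_eq_zero fun i hi => by
        rw [gg_eq i hs (by linarith), LL_eq_zero hs hb
          ((sc_mono (Nat.lt_succ_iff.1 (Finset.mem_range.1 hi))).trans h1), mul_zero]
      rw [Finset.sum_range_succ, k3, gg_eq _ hs (by linarith)] at k1
      have k4 := mul_le_mul_of_nonneg_left (LL_le hs hb h2) (hc0 (j + 1)).le
      simp only [hΦ]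
      rw [LL_eq_zero hs hb (by linarith), k1]
      linarith
    refine ⟨c (j + 1), sc (j + 1), sc (j + 1) - sc j, hc0 _, by linarith, by linarith [sc_ge j],
      by linarith, ?_, fun s hs h1 => ?_, fun s hs h1 => ?_, fun s hs h1 => ?_⟩
    · have h2 := hc1 j
      have h3 := hc0 (j + 1)
      have h4 := sc_ge j
      have h5 := hcj j
      have h6 := hc0 j
      nlinarith
    · have k1 := (S s).le_tsum (j + 1) fun n _ => hnn n s
      rw [gg_eq _ hs.le (by linarith), LL_pos _ hs] at k1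
      have k2 := mul_le_mul_of_nonneg_left (le_lam (sc (j + 1) + Real.log s)) (hc0 (j + 1)).le
      have k3 := LL_nonneg 2 s
      simp only [hΦ]
      linarith
    · simpa using hup s (sc (j + 1)) hs h1 (sc_mono (Nat.le_succ j)) le_rfl
    · exact hup s (sc j) hs (by simpa using h1) le_rfl (sc_mono (Nat.le_succ j))

end Pool.Agent.H6Z.Berg
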