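import Pool.Agent.H6Z.Berg.Est
import Pool.Agent.H6Z.Berg.Avg
import Pool.Agent.H6Z.Berg.Phi

/-!
The Bergman projection of the domain is unbounded on `L^p` for `1 < p < 2`.
-/

set_option autoImplicit false

namespace Pool.Agent.H6Z.Berg

open Set Filter Topology MeasureTheory Function Metric
open scoped Real ComplexConjugate

variable {Φ : ℝ → ℝ}

theorem unbdd (hc : Continuous Φ) (h0 : ∀ s, 0 ≤ Φ s) (h1 : ∀ s, 1 ≤ s → 1 + Real.log s ≤ Φ s)
    (hm : ∀ s t, 0 ≤ s → s ≤ t → t ≤ 1 → Φ s ≤ Φ t)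
    (hs : ∀ η : ℝ, 0 < η → ∃ c a l : ℝ, 0 < c ∧ 0 ≤ l ∧ l ≤ a ∧ η⁻¹ ≤ l ∧ c * (l + 1) ≤ η ∧
      (∀ s, 0 < s → s ≤ 1 → c * (a + Real.log s - 1) ≤ Φ s) ∧
      (∀ s, 0 ≤ s → s ≤ Real.exp (-a) → Φ s ≤ c) ∧
      (∀ s, 0 ≤ s → s ≤ Real.exp (l - a) → Φ s ≤ c * (l + 1)))
    {p : ℝ} (hp1 : 1 < p) (hp2 : p < 2) (C : NNReal) :
    ∃ f g : (Fin 2 → ℂ) → ℂ, (∀ q, MemLp f q (volume.restrict (Om Φ))) ∧
      Differentiable ℂ g ∧ (∀ q, MemLp g q (volume.restrict (Om Φ))) ∧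
      (∀ h : (Fin 2 → ℂ) → ℂ, DifferentiableOn ℂ h (Om Φ) → MemLp h 2 (volume.restrict (Om Φ)) →
        ∫ x in Om Φ, (f x - g x) * starRingEnd ℂ (h x) = 0) ∧
      (C : ENNReal) * eLpNorm f (ENNReal.ofReal p) (volume.restrict (Om Φ)) <
        eLpNorm g (ENNReal.ofReal p) (volume.restrict (Om Φ)) := by
  obtain ⟨r, b, k, hb0, hb1, hb, hlt⟩ := blow hc h0 h1 hs hp1 hp2 C.coe_nonneg
  have hp0 : 0 < p := by linarith
  have key : ∀ G : ℝ → ℝ, Measurable G → (∀ t, |G t| ≤ 1) → ∀ q,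
      MemLp (fun x : Fin 2 → ℂ => (G ‖x 0‖ : ℂ) * x 1 ^ k) q (volume.restrict (Om Φ)) :=
    fun G hG hB q => by
    refine Om_memLp hc h0 h1 (Measurable.aestronglyMeasurable ?_) 1 (fun x hx => ?_) q
    · exact (Complex.measurable_ofReal.comp (hG.comp (measurable_pi_apply 0).norm)).mul
        ((measurable_pi_apply 1).pow_const k)
    · rw [norm_mul, norm_pow, Complex.norm_real, Real.norm_eq_abs]
      exact mul_le_one₀ (hB _) (by positivity) (pow_le_one₀ (norm_nonneg _) hx)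
  have c1 : ∀ t, |chi r t| ≤ 1 := fun t => by
    rw [abs_of_nonneg (chi_mem r t).1]; exact (chi_mem r t).2
  have c2 : ∀ _ : ℝ, |b| ≤ 1 := fun _ => by rwa [abs_of_nonneg hb0]
  have c3 : ∀ t, |chi r t - b| ≤ 1 := fun t => by
    have := chi_mem r t
    rw [abs_le]; constructor <;> linarith
  have m3 : Measurable fun t => chi r t - b := (chi_meas r).sub_const b
  have mf := key _ (chi_meas r) c1
  have mg := key (fun _ => b) measurable_const c2
  refine ⟨_, _, mf, by fun_prop, mg, fun h hd hh => ?_, ?_⟩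
  · have e1 : ∀ x : Fin 2 → ℂ, (chi r ‖x 0‖ : ℂ) * x 1 ^ k - (b : ℂ) * x 1 ^ k =
        ((chi r ‖x 0‖ - b : ℝ) : ℂ) * x 1 ^ k := fun x => by push_cast; ring
    simp only [e1]
    refine orth (Om_open hc) (fun z hz y => Om_reinhardt h0 h1 hm hz) (fun t => chi r t - b) k h hd
      ((key _ m3 c3 2).integrable_mul hh.star) ?_
    have e2 := fub hc h0 h1 m3 c3 (α := (2 * k : ℕ)) (Nat.cast_nonneg _)
    simp only [Real.rpow_natCast] at e2
    have hβ : (0 : ℝ) < k + 1 := by positivity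
    rw [e2, show ((2 * k : ℕ) : ℝ) / 2 + 1 = k + 1 by push_cast; ring]
    simp only [sub_mul]
    rw [integral_sub (chi_uu_int hc h1 hβ r) ((uu_int hc h1 hβ).const_mul b), integral_const_mul,
      hb, sub_self, mul_zero]
  · have q0 : ENNReal.ofReal p ≠ 0 := by simpa using hp0
    have hα : 0 ≤ k * p := by positivity
    have e3 : ∀ (y : ℝ) (w : ℂ), 0 ≤ y → ‖(y : ℂ) * w ^ k‖ ^ p = y ^ p * ‖w‖ ^ (k * p) :=
      fun y w hy => by
      rw [norm_mul, norm_pow, Complex.norm_real, Real.norm_of_nonneg hy,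
        Real.mul_rpow hy (by positivity), Real.rpow_natCast_mul (norm_nonneg _)]
    have e4 : ∀ t, chi r t ^ p = chi r t := fun t => by
      unfold chi; split_ifs <;> simp [hp0.ne']
    rw [(mf _).eLpNorm_eq_integral_rpow_norm q0 ENNReal.ofReal_ne_top,
      (mg _).eLpNorm_eq_integral_rpow_norm q0 ENNReal.ofReal_ne_top, ENNReal.toReal_ofReal hp0.le]
    simp only [e3 _ _ (chi_mem _ _).1, e3 _ _ hb0, e4]
    have e5 := fub hc h0 h1 (G := fun _ => 1) measurable_const (by simp) hα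
    simp only [one_mul] at e5
    rw [integral_const_mul, e5, fub hc h0 h1 (chi_meas r) c1 hα]
    have hI := II_pos hα
    have hA : 0 ≤ ∫ z, chi r ‖z‖ * uu Φ z ^ (k * p / 2 + 1) := integral_nonneg fun z =>
      mul_nonneg (chi_mem _ _).1 (Real.rpow_nonneg (uu_mem h0 z).1 _)
    rw [← ENNReal.ofReal_coe_nnreal, ← ENNReal.ofReal_mul C.coe_nonneg,
      ENNReal.ofReal_lt_ofReal_iff_of_nonneg (by positivity)]
    calc (C : ℝ) * _ = ((C : ℝ) ^ p * (II (k * p) *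
          ∫ z, chi r ‖z‖ * uu Φ z ^ (k * p / 2 + 1))) ^ p⁻¹ := by
          rw [Real.mul_rpow (x := (C : ℝ) ^ p) (by positivity) (by positivity),
            Real.rpow_rpow_inv C.coe_nonneg hp0.ne']
      _ < _ := Real.rpow_lt_rpow (by positivity) (by nlinarith) (inv_pos.2 hp0)

end Pool.Agent.H6Z.Berg
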